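import Mathlib
import Pool.Agent.H77.TF.Stm
import Pool.Agent.H77.TF.Stm2

set_option autoImplicit false

open MvPolynomial Module

namespace Pool.Agent.H69.TF

open Pool.Agent.H77.TF

theorem evl_frob {K : Type} [Field K] [Fintype K] {l : ℕ} (k : ℕ) (a : Fin l → K) :
    evl a (frob K l k) = lin a ^ (Fintype.card K ^ k) := by
  obtain ⟨p, hp⟩ := CharP.exists K
  obtain ⟨r, hpr, hcard⟩ := FiniteField.card K p
  have : Fact p.Prime := ⟨hpr⟩
  have hq : Fintype.card K ^ k = p ^ ((r : ℕ) * k) := by rw [hcard, pow_mul]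
  unfold lin evl frob
  rw [hq, sum_pow_char_pow]
  refine Finset.sum_congr rfl fun i _ => ?_
  rw [mul_pow, ← C_pow, ← hq]
  congr 2
  exact (FiniteField.pow_card_pow k (a i)).symm

theorem lin_ne {K : Type} [Field K] {l : ℕ} {a : Fin l → K} {j : Fin l} (ha : a j ≠ 0) :
    lin a ≠ 0 := by
  intro h0
  apply ha
  have := congrArg (eval (Pi.single j (1 : K))) h0
  simpa [lin, Pi.single_apply] using this

theorem partA {K : Type} [Field K] [Fintype K] (m : ℕ) {ν : Type} [Fintype ν]
    (A : ν → Fin (m + 1) → K) (h : Fin (m + 1) → K) (j : Fin (m + 1))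
    (ρ : MvPolynomial (Fin (m + 1)) K →ₐ[K] MvPolynomial (Fin m) K)
    (φ : Fin (m + 1) → MvPolynomial (Fin (m + 1)) K) (c : K)
    (hm : 2 ≤ m) (hj : h j ≠ 0) (hρ : ∀ i, ρ (X (j.succAbove i)) = X i) (hρh : ρ (lin h) = 0)
    (hφ : evl h φ = 0)
    (hdet : (Matrix.of fun k : Fin (m + 1) => if (k : ℕ) = m then φ else frob K (m + 1) k).det =
      C c * (lin h * ∏ i, lin (A i))) :
    ∃ ε : MvPolynomial (Fin m) K,
      ε * (Matrix.of fun k : Fin m => if (k : ℕ) + 1 = m then (fun i => ρ (φ (j.succAbove i)))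
      else frob K m ((k : ℕ) + 1)).det = C (h j * c) * ∏ i, ρ (lin (A i)) := by
  classical
  set M : Matrix (Fin (m + 1)) (Fin (m + 1)) (MvPolynomial (Fin (m + 1)) K) :=
    Matrix.of fun k : Fin (m + 1) => if (k : ℕ) = m then φ else frob K (m + 1) k with hM
  set u : Fin (m + 1) → MvPolynomial (Fin (m + 1)) K :=
    fun k => if (k : ℕ) = m then 0 else lin h ^ (Fintype.card K ^ (k : ℕ) - 1) with hu
  have hq1 : 1 < Fintype.card K := Fintype.one_lt_card
  have h1 := Matrix.det_updateCol_sum M j (fun i => C (h i))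
  have h2 : (fun k => ∑ i, (C (h i) : MvPolynomial (Fin (m + 1)) K) • M k i) = lin h • u := by
    funext k
    have e1 : (∑ i, (C (h i) : MvPolynomial (Fin (m + 1)) K) • M k i) = evl h (M k) := by
      simp [evl, smul_eq_mul]
    rw [e1]
    by_cases hk : (k : ℕ) = m
    · have e2 : M k = φ := by
        rw [hM]
        show (if (k : ℕ) = m then φ else frob K (m + 1) k) = φ
        rw [if_pos hk]
      rw [e2, hφ]
      simp [hu, hk]
    · have e2 : M k = frob K (m + 1) k := by
        rw [hM]
        show (if (k : ℕ) = m then φ else frob K (m + 1) k) = _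
        rw [if_neg hk]
      rw [e2, evl_frob]
      show _ = lin h * u k
      rw [hu]
      show _ = lin h * (if (k : ℕ) = m then 0 else lin h ^ (Fintype.card K ^ (k : ℕ) - 1))
      rw [if_neg hk, ← pow_succ']
      congr 1
      have : 0 < Fintype.card K ^ (k : ℕ) := pow_pos (by omega) _
      omega
  rw [h2, Matrix.det_updateCol_smul, hdet, smul_eq_mul] at h1
  have h3 : (M.updateCol j u).det = C (h j * c) * ∏ i, lin (A i) := by
    apply mul_left_cancel₀ (lin_ne hj)
    rw [h1, C_mul]
    ring
  have h4 := congrArg ρ h3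
  rw [AlgHom.map_det, map_mul, map_prod, Matrix.det_succ_column _ j,
    Finset.sum_eq_single (0 : Fin (m + 1))] at h4
  · have e0 : (ρ.mapMatrix (M.updateCol j u)) 0 j = 1 := by
      rw [AlgHom.mapMatrix_apply, Matrix.map_apply, Matrix.updateCol_self, hu]
      show ρ (if ((0 : Fin (m + 1)) : ℕ) = m then 0 else _) = 1
      rw [if_neg (by simp; omega)]
      simp
    have e3 : ρ (C (h j * c)) = C (h j * c) := by
      rw [MvPolynomial.algHom_C]
      rfl
    have e4 : (ρ.mapMatrix (M.updateCol j u)).submatrix (Fin.succAbove 0) j.succAbove =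
        (Matrix.of fun k : Fin m => if (k : ℕ) + 1 = m then (fun i => ρ (φ (j.succAbove i)))
          else frob K m ((k : ℕ) + 1)) := by
      ext1 k i
      rw [Matrix.submatrix_apply, AlgHom.mapMatrix_apply, Matrix.map_apply,
        Matrix.updateCol_ne (Fin.succAbove_ne j i), Fin.succAbove_zero, hM]
      show ρ ((if ((Fin.succ k : Fin (m + 1)) : ℕ) = m then φ else
        frob K (m + 1) (Fin.succ k : Fin (m + 1))) (j.succAbove i)) =
        (if (k : ℕ) + 1 = m then (fun i => ρ (φ (j.succAbove i))) else frob K m ((k : ℕ) + 1)) i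
      rw [Fin.val_succ]
      by_cases hk : (k : ℕ) + 1 = m
      · rw [if_pos hk, if_pos hk]
      · rw [if_neg hk, if_neg hk]
        unfold frob
        rw [map_pow, hρ]
    rw [e0, e3, e4] at h4
    exact ⟨_, h4⟩
  · intro i _ hi
    have e0 : (ρ.mapMatrix (M.updateCol j u)) i j = 0 := by
      rw [AlgHom.mapMatrix_apply, Matrix.map_apply, Matrix.updateCol_self, hu]
      show ρ (if (i : ℕ) = m then 0 else _) = 0
      by_cases him : (i : ℕ) = m
      · rw [if_pos him, map_zero]
      · rw [if_neg him, map_pow, hρh, zero_pow]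
        have hi0 : (i : ℕ) ≠ 0 := fun h => hi (Fin.ext h)
        have : 1 < Fintype.card K ^ (i : ℕ) := Nat.one_lt_pow hi0 hq1
        omega
    rw [e0, mul_zero, zero_mul]
  · intro h0
    exact absurd (Finset.mem_univ _) h0

theorem rho_lin {K : Type} [Field K] (m : ℕ) (j : Fin (m + 1))
    (ρ : MvPolynomial (Fin (m + 1)) K →ₐ[K] MvPolynomial (Fin m) K)
    (hρ : ∀ i, ρ (X (j.succAbove i)) = X i) (a : Fin m → K) :
    ρ (lin (j.insertNth (0 : K) a : Fin (m + 1) → K)) = lin a := by
  unfold lin
  rw [Fin.sum_univ_succAbove _ j, map_add, map_sum]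
  simp only [Fin.insertNth_apply_same, Fin.insertNth_apply_succAbove, map_mul, hρ, map_zero,
    zero_mul, zero_add]
  refine Finset.sum_congr rfl fun i _ => ?_
  rw [MvPolynomial.algHom_C]
  rfl

theorem rsn (hMOO : S_MOO) (hPNT : S_PNT) : S_RSN := by
  classical
  intro K _ _ m ν _ A h j ρ φ c b hm hj hρ hρh hc hφ hdet hb hA hD
  obtain ⟨ε, hε⟩ := partA m A h j ρ φ c hm hj hρ hρh hφ hdet
  obtain ⟨F, iF, iA, x, hx⟩ := hPNT K m (Submodule.span K {b})
  have hevl : ∀ a : Fin m → K, (aeval x) (lin a) = ∑ i, a i • x i := by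
    intro a
    unfold lin
    rw [map_sum]
    refine Finset.sum_congr rfl fun i _ => ?_
    rw [map_mul, aeval_X, MvPolynomial.algHom_C, Algebra.smul_def]
  have hbx : (aeval x) (lin b) = (0 : F) := by
    rw [hevl, hx]
    exact Submodule.mem_span_singleton_self b
  -- the forms do not vanish
  have hAx : ∀ i, (aeval x) (ρ (lin (A i))) ≠ (0 : F) := by
    intro i h0
    set s : K := A i j * (h j)⁻¹ with hs
    set a' : Fin m → K := fun t => A i (j.succAbove t) - s * h (j.succAbove t) with ha'
    have e1 : A i = (j.insertNth (0 : K) a' : Fin (m + 1) → K) + s • h := by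
      funext t
      refine Fin.succAboveCases j ?_ ?_ t
      · simp [hs, hj]
      · intro t
        simp [ha']
    have e2 : lin (A i) = lin (j.insertNth (0 : K) a' : Fin (m + 1) → K) + C s * lin h := by
      conv_lhs => rw [e1]
      unfold lin
      rw [Finset.mul_sum, ← Finset.sum_add_distrib]
      refine Finset.sum_congr rfl fun t _ => ?_
      simp only [Pi.add_apply, Pi.smul_apply, smul_eq_mul, C_add, C_mul]
      ring
    rw [e2, map_add, map_mul, hρh, mul_zero, add_zero, rho_lin m j ρ hρ, hevl, hx,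
      Submodule.mem_span_singleton] at h0
    obtain ⟨t, ht⟩ := h0
    apply hA i
    rw [Submodule.mem_span_pair]
    refine ⟨t, s, ?_⟩
    rw [e1, ← ht]
    congr 1
    funext y
    refine Fin.succAboveCases j ?_ ?_ y
    · simp
    · intro y
      simp
  have hN : (aeval x) (Matrix.of fun k : Fin m => if (k : ℕ) + 1 = m then
      (fun i => ρ (φ (j.succAbove i))) else frob K m ((k : ℕ) + 1)).det ≠ (0 : F) := by
    intro h0
    have h1 := congrArg (aeval x) hε
    rw [map_mul, h0, mul_zero, map_mul, map_prod] at h1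
    have h2 : (aeval x) (C (h j * c) : MvPolynomial (Fin m) K) ≠ (0 : F) := by
      rw [MvPolynomial.algHom_C]
      exact (map_ne_zero _).2 (mul_ne_zero hj hc)
    exact mul_ne_zero h2 (Finset.prod_ne_zero_iff.2 fun i _ => hAx i) h1.symm
  set v : Fin m → MvPolynomial (Fin m) K := fun i => ρ (φ (j.succAbove i)) with hv
  have hbb : (fun i => algebraMap K F (b i)) ≠ 0 := by
    intro h0
    apply hb
    funext i
    have := congrFun h0 i
    simpa using this
  have hrow : ∀ w : Fin m → MvPolynomial (Fin m) K,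
      ∑ i, (aeval x) (w i) * algebraMap K F (b i) = (aeval x) (evl b w) := by
    intro w
    unfold evl
    rw [map_sum]
    refine Finset.sum_congr rfl fun i _ => ?_
    rw [map_mul, MvPolynomial.algHom_C, mul_comm]
  have hfr : ∀ k, (aeval x) (evl b (frob K m k)) = (0 : F) := by
    intro k
    rw [evl_frob, map_pow, hbx, zero_pow]
    exact pow_ne_zero _ Fintype.card_ne_zero
  -- the last row is not orthogonal to b
  have hvb : (aeval x) (evl b v) ≠ (0 : F) := by
    intro h0
    apply hN
    rw [AlgHom.map_det, ← Matrix.exists_mulVec_eq_zero_iff]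
    refine ⟨_, hbb, ?_⟩
    funext k
    show ∑ i, (aeval x) ((if (k : ℕ) + 1 = m then v else frob K m ((k : ℕ) + 1)) i) *
      algebraMap K F (b i) = 0
    rw [hrow]
    by_cases hk : (k : ℕ) + 1 = m
    · rw [if_pos hk, h0]
    · rw [if_neg hk, hfr]
  -- suppose that the determinant vanishes
  have hD' := congrArg (aeval x) hD
  rw [AlgHom.map_det, map_zero, ← Matrix.exists_vecMul_eq_zero_iff] at hD'
  obtain ⟨w, hw0, hw⟩ := hD'
  have hwi : ∀ i, ∑ k : Fin m, w k * (aeval x) ((if (k : ℕ) + 1 = m then v else frob K m k) i) =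
      (0 : F) := fun i => congrFun hw i
  obtain ⟨m', rfl⟩ : ∃ m', m = m' + 1 := ⟨m - 1, by omega⟩
  have hlast : w (Fin.last m') = 0 := by
    have h1 : ∑ i, (∑ k : Fin (m' + 1), w k * (aeval x) ((if (k : ℕ) + 1 = m' + 1 then v else
        frob K (m' + 1) k) i)) * algebraMap K F (b i) = 0 := by
      refine Finset.sum_eq_zero fun i _ => ?_
      rw [hwi i, zero_mul]
    simp_rw [Finset.sum_mul] at h1
    rw [Finset.sum_comm, Finset.sum_eq_single (Fin.last m')] at h1
    · simp_rw [mul_assoc] at h1
      rw [← Finset.mul_sum, hrow] at h1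
      rw [if_pos (by simp)] at h1
      exact (mul_eq_zero.1 h1).resolve_right hvb
    · intro k _ hk
      simp_rw [mul_assoc]
      rw [← Finset.mul_sum, hrow, if_neg, hfr, mul_zero]
      intro h2
      apply hk
      apply Fin.ext
      simpa using h2
    · intro h0
      exact absurd (Finset.mem_univ _) h0
  have hc' : (fun k : Fin m' => w k.castSucc) ≠ 0 := by
    intro h0
    apply hw0
    funext k
    refine Fin.lastCases ?_ (fun k => ?_) k
    · exact hlast
    · exact congrFun h0 k
  have hmoo := hMOO K F (m' + 1) m' x (fun k : Fin m' => w k.castSucc) hc' (by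
    intro i
    have h1 := hwi i
    rw [Fin.sum_univ_castSucc, hlast, zero_mul, add_zero] at h1
    rw [← h1]
    refine Finset.sum_congr rfl fun k _ => ?_
    rw [if_neg (by simp [k.2.ne])]
    unfold frob
    rw [map_pow, aeval_X]
    rfl)
  have hker : LinearMap.ker (Fintype.linearCombination K x) = Submodule.span K {b} := by
    ext a
    rw [LinearMap.mem_ker, Fintype.linearCombination_apply, hx]
  have hrk := LinearMap.finrank_range_add_finrank_ker (Fintype.linearCombination K x)
  rw [Fintype.range_linearCombination, hker, finrank_span_singleton hb, finrank_fin_fun] at hrk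
  omega

end Pool.Agent.H69.TF
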